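import Pool.Agent.W888.VX.Main

set_option autoImplicit false

/-!
# Branch-and-cut for vertex cover

The definitions used in the statement are in `Pool/Agent/W888/VX/Rel.lean`, `SX/Rel.lean` and
`UG/Ent.lean`, `UG/Model.lean`:

* `Relax E L B`: the fractional points which the semidefinite relaxation (with all triangle
  inequalities and a penalty `L` for each uncovered edge) does not exclude when it is used to prove
  that the graph with the edges `E` has no vertex cover with at most `B` vertices;
* `lab o`: the point of the set with indicator `o`;
* `Tree`: branch-and-cut trees; `Tree.leaves`: the number of leaves; `Tree.Proves`: at every leaf no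
  point of the relaxation satisfies all the branches above it;
* `SplitProof`: cutting-plane proofs with split cuts, as lists of cuts.

Idea of the proof. The graph is a random sparse graph whose vertices are the points of the cube
`{0, 1} ^ R` and whose edges are almost antipodal pairs. Sets of positive density contain edges
since two sets of positive density are joined by a positive fraction of these pairs: this follows by
induction over the dimension from an inequality for two points, which is proved by expanding the
`C`-th powers and coupling two binomial variables. The relaxation has solutions with marginals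
`p`, slightly above `1 / 2`, and the Gram matrix `p ^ 2 + p (1 - p) Q(⟨x, y⟩ / R)`, where
`Q(t) = (1 - θ) t + θ t ^ N` is convex with its minimum at the typical value of `⟨x, y⟩ / R` for an
edge. If fewer than `2 ^ (γ n)` convex sets cover `{0, 1} ^ n`, `n = 2 ^ R`, then by
superadditivity of the divergence one of them contains a point whose marginals are close to `p`
outside a small set of vertices; fixing these vertices and mixing with a little of a product
distribution gives a solution with the marginals of the point.
-/

namespace Pool.Agent.Results.MP_cff830_lc.BranchAndCut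

open Pool.Agent.W888.VX
open Pool.Agent.W888.UG (lab Tree SplitProof)

/-- For all `0 < ε < 1 / 4` and `L ≥ 1` there are `M` and `γ > 0` such that for all large `R` there
is a graph with `n = 2 ^ R` vertices and at most `M n` edges (the pairs in `E`), without loops, with
the following properties.
1. Every vertex cover has at least `(1 - ε) n` vertices.
2. If `{0, 1} ^ n` is covered by convex sets which contain no point of the relaxation for covers
with at most `(1 / 2 + ε) n` vertices and the penalty `L`, then there are at least `2 ^ (γ n)` sets.
Every branch-and-cut tree which proves that all vertex covers have more than `(1 / 2 + ε) n`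
vertices has at least `2 ^ (γ n)` leaves, and every such proof with `l` split cuts satisfies
`2 l + 1 ≥ 2 ^ (γ n)`.
3. Some branch-and-cut tree with `2 ^ n` leaves is such a proof. -/
theorem result (ε L : ℝ) (hε : 0 < ε) (hε4 : ε < 1 / 4) (hL : 1 ≤ L) :
    ∃ (M : ℕ) (γ : ℝ), 0 < γ ∧ ∃ R₀ : ℕ, ∀ R : ℕ, R₀ ≤ R →
      ∃ E : Finset ((Fin R → Bool) × (Fin R → Bool)), E.card ≤ M * 2 ^ R ∧
      (∀ e ∈ E, e.1 ≠ e.2) ∧
      (∀ C : Finset (Fin R → Bool), (∀ e ∈ E, e.1 ∈ C ∨ e.2 ∈ C) →
        (1 - ε) * 2 ^ R ≤ C.card) ∧
      (∀ F : List (Set ((Fin R → Bool) → Bool → ℝ)), (∀ C ∈ F, Convex ℝ C) →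
        (∀ C ∈ F, ∀ μ ∈ C, μ ∉ Relax E L ((1 / 2 + ε) * 2 ^ R)) →
        (∀ o : (Fin R → Bool) → Bool, ∃ C ∈ F, lab o ∈ C) →
        (2 : ℝ) ^ (γ * 2 ^ R) ≤ F.length) ∧
      (∀ T : Tree (Fin R → Bool) Bool, T.Proves (Relax E L ((1 / 2 + ε) * 2 ^ R)) Set.univ →
        (2 : ℝ) ^ (γ * 2 ^ R) ≤ T.leaves) ∧
      (∀ l, SplitProof (Relax E L ((1 / 2 + ε) * 2 ^ R)) l Set.univ →
        (2 : ℝ) ^ (γ * 2 ^ R) ≤ 2 * l.length + 1) ∧
      ∃ T : Tree (Fin R → Bool) Bool, T.leaves = 2 ^ 2 ^ R ∧
        T.Proves (Relax E L ((1 / 2 + ε) * 2 ^ R)) Set.univ :=
  main_all ε L hε hε4 hL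

end Pool.Agent.Results.MP_cff830_lc.BranchAndCut
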