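import Pool.Agent.W896.FD.VC

/-!
# The size of vertex covers cannot be estimated with few reads and little memory

A graph with the `2 n` vertices `(i, s)` (`s` a bit) is given by a table with one bit for each
ordered pair of vertices (there is an edge if one of the two bits of a pair is one). We consider
Boolean circuits with AND gates of fan-in two, OR gates of any fan-in and negations at the inputs,
which distinguish graphs with a vertex cover of at most `K = 2 ⌊n / 4⌋` vertices from graphs all of
whose vertex covers have more than `K + ⌊n / D⌋` vertices (unit weights). The value of the circuit is
arbitrary for the other graphs.

Such a circuit accepts if and only if it has a proof tree all of whose leaves are true literals; the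
formal degree in an input bit is the largest number of leaves with this bit, that is, the number of
times this bit is read. Nondeterministic, in particular deterministic, branching programs are such
circuits (the logarithm of the size is the memory, and a bit which is read at most `k` times on
every path has degree at most `k`), and so are programs with a stack. There is no bound on the time.

We show that these circuits have size `2 ^ Ω (n)` if the formal degrees in the `n` bits of the
perfect matching of the pairs `(i, 0), (i, 1)` sum up to `O (n)`; all other bits may be read without
any limit. So for some ratio `1 + δ` the approximation of the size of a vertex cover needs memory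
`Ω (n)` or superlinearly many reads of these `n` bits, even for nondeterministic algorithms with a
stack, which may guess the vertex cover, and also with one-sided randomness. (The gap `δ` is tiny and
depends on the number `k` of reads.)

The hard instances: a random matching of (half of) the indices; for two matched indices `v, w` there
are all four edges between the pairs of `v` and of `w`, and the edges in these pairs are free bits.
These four vertices need a cover with two vertices, and with three vertices if both free edges are
present.
-/

set_option autoImplicit false

namespace Pool.Agent.Results.MP_cff830_lc.FormalDegree

open Pool.Agent.W896.RK Pool.Agent.W896.FD Pool.Agent.W896.FD.VC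

/-- `HasVC K x` says that the graph of the table `x` has a vertex cover with at most `K` vertices.
Let `K = 2 ⌊n / 4⌋` and `t = ⌊⌊n / 2 ^ (120 (k + 1))⌋ / 2⌋`, and let `U r` (`r` in a finite
nonempty set) be circuits which accept only graphs with a vertex cover of at most `K + t` vertices,
such that each graph with a vertex cover of at most `K` vertices is accepted by at least a
`2 ^ (- ⌊n / 2 ^ (60 (k + 1))⌋)` fraction of them. If in each `U r` the formal degrees in the `n`
bits `((i, 0), (i, 1))` sum up to at most `k n`, then some `U r` has `g` gates with
`n ≤ 2 ^ (60 (k + 1)) (⌊log₂ g⌋ + 1)`. -/
theorem result (k n : ℕ) (R : Type) [Fintype R] [Nonempty R]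
    (U : R → Circ ((Fin n × Bool) × (Fin n × Bool)))
    (hU : ∀ r x, (U r).Val x (U r).out → HasVC (2 * (n / 4) + n / 2 ^ (120 * (k + 1)) / 2) x)
    (hc : ∀ x, HasVC (2 * (n / 4)) x →
      Nat.card R ≤ 2 ^ (n / 2 ^ (60 * (k + 1))) * Nat.card {r // (U r).Val x (U r).out})
    (hdeg : ∀ r, ∃ f : (U r).G → (Fin n × Bool) × (Fin n × Bool) → ℕ, IsDeg (U r) id f ∧
      ∑ i, f (U r).out ((i, false), (i, true)) ≤ k * n) :
    ∃ r, n ≤ 2 ^ (60 * (k + 1)) * (Nat.log 2 (Fintype.card (U r).G) + 1) :=
  vc_main k n R U hU hc hdeg

end Pool.Agent.Results.MP_cff830_lc.FormalDegree
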