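import Mathlib
import Pool.Agent.W939.VC.Params

/-!
# Vertex cover and polynomial calculus

Polynomial calculus resolution over every field needs linear degree and exponential size to
distinguish vertex covers with `(1/2 + ε) n` vertices from vertex covers with `(1 - ε) n` vertices,
although the counters follow a perfect matching of the graph.
-/

namespace Pool.Agent.Results.MP_cff830_lc.PolynomialCalculus

open Finset Pool.Agent.W939.PC Pool.Agent.W939.VC

theorem result :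
    (∀ (F : Type) [Field F] (n t : ℕ) (G : SimpleGraph (Fin n)),
      (∃ x : CVar n t → F, ∀ p, CoverAx F G t p → MvPolynomial.eval x p = 0) ↔
        ∃ C : Finset (Fin n), (∀ u v, G.Adj u v → u ∈ C ∨ v ∈ C) ∧ C.card ≤ t) ∧
    ∃ c : ℝ, 0 < c ∧ ∀ ε : ℝ, 0 < ε → ε ≤ 1 → ∀ N : ℕ, (2 / ε) ^ (c / ε) ≤ (N : ℝ) →
      ∃ n : ℕ, N ≤ n ∧ (n : ℝ) ≤ (2 / ε) ^ c * N ∧ 2 ∣ n ∧ ∃ G : SimpleGraph (Fin n),
        (∀ (i : ℕ) (h : 2 * i + 1 < n), G.Adj ⟨2 * i, by omega⟩ ⟨2 * i + 1, h⟩) ∧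
        (∀ C : Finset (Fin n), (∀ u v, G.Adj u v → u ∈ C ∨ v ∈ C) → (1 - ε) * n ≤ C.card) ∧
        ∀ (F : Type) [Field F] (S : Finset (CVar n ⌊(1 / 2 + ε) * n⌋₊ →₀ ℕ)),
          Derives {p | CoverAx F G ⌊(1 / 2 + ε) * n⌋₊ p}
            (S : Set (CVar n ⌊(1 / 2 + ε) * n⌋₊ →₀ ℕ)) 1 →
            (∃ m ∈ S, (2 / ε) ^ (-(c / ε)) * n ≤ (m.degree : ℝ)) ∧
              (2 : ℝ) ^ ((2 / ε) ^ (-(c / ε)) * n) ≤ S.card := by
  refine ⟨fun F _ n t G => coverAx_sat G, 2160, by norm_num, ?_⟩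
  intro ε hε hε1 N hNX
  obtain ⟨K, k, hK2, hk2, hkε, h8, hr, hk3⟩ := arity hε hε1
  obtain ⟨r, hrdef⟩ : ∃ r : ℕ, r = k * K := ⟨_, rfl⟩
  have hk1 : 1 ≤ k := by omega
  have hK1 : 1 ≤ K := by omega
  have hk1' : (1 : ℝ) ≤ k := by exact_mod_cast hk1
  have hK1' : (1 : ℝ) ≤ K := by exact_mod_cast hK1
  have hr1 : 1 ≤ r := by rw [hrdef]; exact Nat.mul_pos hk1 hK1
  have hr1' : (1 : ℝ) ≤ r := by exact_mod_cast hr1
  have hr' : (r : ℝ) = k * K := by rw [hrdef]; push_cast; ring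
  obtain ⟨γ, a, hγ0, hγ1, hγ, haγ, ha0, ha1, hkey⟩ := params K k r hrdef hK1 hk1
  have h2ε : 2 ≤ 2 / ε := by rw [le_div_iff₀ hε]; linarith
  have h2ε0 : (0 : ℝ) < 2 / ε := by linarith
  have h2ε1 : (1 : ℝ) ≤ 2 / ε := by linarith
  -- the number `X = (2 / ε) ^ (c / ε)`
  obtain ⟨X, hX⟩ : ∃ X : ℝ, X = (2 / ε) ^ ((2160 : ℝ) / ε) := ⟨_, rfl⟩
  rw [← hX] at hNX
  have hX0 : 0 < X := by rw [hX]; exact Real.rpow_pos_of_pos h2ε0 _
  have hEX : Real.exp (80 * r) ≤ X := by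
    rw [hX, Real.rpow_def_of_pos h2ε0]
    apply Real.exp_le_exp.2
    have h1 : (80 : ℝ) * r ≤ 80 * (27 / ε * Real.log (2 / ε)) := by
      rw [hr']; linarith
    refine h1.trans (le_of_eq ?_)
    ring
  obtain ⟨D0, hD0⟩ : ∃ D0 : ℝ, D0 = 40960 * k * (r : ℝ) ^ 4 := ⟨_, rfl⟩
  rw [← hD0] at hkey
  have hXkey : D0 * (a⁻¹) ^ 2 ≤ X := hkey.trans hEX
  have hAX : (2 / ε) ^ (-((2160 : ℝ) / ε)) = X⁻¹ := by
    rw [hX, Real.rpow_neg h2ε0.le]
  rw [hAX]
  have hD1 : 64 * (r : ℝ) ^ 2 ≤ D0 := by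
    rw [hD0]
    have h1 : (r : ℝ) ^ 2 ≤ (r : ℝ) ^ 4 := pow_le_pow_right₀ hr1' (by norm_num)
    have h2 : (40960 : ℝ) * 1 ≤ 40960 * k := by linarith
    have h3 : (40960 : ℝ) * (r : ℝ) ^ 4 ≤ 40960 * k * (r : ℝ) ^ 4 :=
      mul_le_mul_of_nonneg_right (by linarith) (by positivity)
    have h4 : (0 : ℝ) ≤ (r : ℝ) ^ 2 := by positivity
    linarith
  have hDpos : 0 < D0 := by rw [hD0]; positivity
  have hA : X⁻¹ ≤ a ^ 2 / D0 := by
    rw [inv_le_comm₀ hX0 (by positivity)]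
    refine le_trans (le_of_eq ?_) hXkey
    rw [inv_div, inv_pow]
    ring
  have hAa : X⁻¹ ≤ a / (64 * (r : ℝ) ^ 2) := by
    refine hA.trans ?_
    rw [div_le_div_iff₀ hDpos (by positivity)]
    have h1 : a ^ 2 ≤ a := by
      rw [pow_two]; exact mul_le_of_le_one_left ha0.le ha1
    exact mul_le_mul h1 hD1 (by positivity) ha0.le
  have haX : 64 * (r : ℝ) ^ 2 / a ≤ X := by
    have := (inv_le_comm₀ hX0 (by positivity)).1 hAa
    rw [inv_div] at this
    exact this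
  have hN0' : (0 : ℝ) < N := lt_of_lt_of_le hX0 hNX
  have hN0 : 0 < N := by exact_mod_cast hN0'
  have hN1' : (1 : ℝ) ≤ N := by exact_mod_cast hN0
  have hrr : (r : ℝ) ≤ (r : ℝ) ^ 2 := by nlinarith only [hr1']
  have haN : 64 * (r : ℝ) ≤ a * N := by
    have : 64 * (r : ℝ) ^ 2 / a ≤ N := haX.trans hNX
    rw [div_le_iff₀ ha0] at this
    linarith only [this, hrr]
  obtain ⟨s, hsdef⟩ : ∃ s : ℕ, s = ⌊a * N⌋₊ := ⟨_, rfl⟩
  obtain ⟨e, hedef⟩ : ∃ e : ℕ, e = ⌊a * N / (32 * r)⌋₊ := ⟨_, rfl⟩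
  have hs1 : (s : ℝ) ≤ a * N := by rw [hsdef]; exact Nat.floor_le (by positivity)
  have hs2 : a * N - 1 < s := by rw [hsdef]; exact Nat.sub_one_lt_floor _
  have he1 : (e : ℝ) ≤ a * N / (32 * r) := by rw [hedef]; exact Nat.floor_le (by positivity)
  have he1' : (e : ℝ) * (32 * r) ≤ a * N := by
    rwa [le_div_iff₀ (by positivity)] at he1
  have he2n : 2 ≤ e := by
    rw [hedef]
    apply Nat.le_floor
    rw [le_div_iff₀ (by positivity)]
    push_cast
    linarith only [haN]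
  have he3 : a * N / (64 * r) ≤ e := by
    have h1 : a * N / (32 * r) - 1 < e := by rw [hedef]; exact Nat.sub_one_lt_floor _
    have h2 : a * N / (32 * r) = 2 * (a * N / (64 * r)) := by
      field_simp
      ring
    have h3 : 1 ≤ a * N / (64 * r) := by
      rw [le_div_iff₀ (by positivity)]
      linarith only [haN]
    linarith only [h1, h2, h3]
  -- the number of vertices
  obtain ⟨n, hn⟩ : ∃ n : ℕ, n = K * N * (k * 2) := ⟨_, rfl⟩
  have hnr : n = 2 * r * N := by rw [hn, hrdef]; ring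
  have hnr' : (n : ℝ) = 2 * r * N := by rw [hnr]; push_cast; ring
  have hn1 : 1 ≤ n := by
    rw [hnr]
    have : 0 < r * N := by positivity
    nlinarith only [this]
  obtain ⟨n1, hn1def⟩ : ∃ n1 : ℕ, n1 = 20 * k * r * N := ⟨_, rfl⟩
  have hn1' : (n1 : ℝ) = 20 * k * r * N := by rw [hn1def]; push_cast; ring
  have hlog : Real.log 2 ≤ 1 := by have := Real.log_two_lt_d9; linarith
  have hτ1 : 1 < Real.exp 2 := by
    have := Real.add_one_le_exp (2 : ℝ); linarith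
  obtain ⟨G, hG1, hG2, hG3⟩ := core_cover (K := K) (k := k) (N := N) (s := s) (e := e)
    (t := ⌊(1 / 2 + ε) * ((K * N * (k * 2) : ℕ) : ℝ)⌋₊) (n := n1)
    (δ := ε) (τ := Real.exp 2) (γ := γ) hK2 hτ1 rfl
    (value_bound hε hε1 hK2 hkε h8 hN0) hk2
    (by
      apply Nat.le_floor
      push_cast
      have h1 : (0 : ℝ) ≤ (K : ℝ) * N := by positivity
      have h2 : ((K : ℝ) * N) * 2 ≤ ((K : ℝ) * N) * (ε * k) :=
        mul_le_mul_of_nonneg_left hkε h1
      have h3 : (1 / 2 + ε) * ((K : ℝ) * N * (k * 2)) =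
          (K : ℝ) * N * k + 2 * (((K : ℝ) * N) * (ε * k)) := by ring
      rw [h3]
      have h4 : ((k : ℝ) + 2) * (K * N) = (K : ℝ) * N * k + (K : ℝ) * N * 2 := by ring
      rw [h4]
      linarith only [h1, h2])
    hN0 hγ0 hγ1
    (by rw [← hrdef]; exact hγ)
    (by
      rw [← hrdef]
      have h1 : ((r * s : ℕ) : ℝ) = (r : ℝ) * s := by push_cast; ring
      rw [h1]
      have h2 : (r : ℝ) * s ≤ (r : ℝ) * (a * N) :=
        mul_le_mul_of_nonneg_left hs1 (Nat.cast_nonneg _)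
      refine h2.trans (le_of_eq ?_)
      rw [← haγ]
      ring)
    he2n
    (by
      rw [← hrdef]
      have : (4 * (4 * e * r + r) : ℝ) ≤ s := by
        have h1 : (4 * (4 * e * r + r) : ℝ) = (e * (32 * r)) / 2 + 4 * r := by ring
        rw [h1]
        linarith only [he1', hs2, haN, hr1']
      exact_mod_cast this)
    (by
      have h1 : a * N ≤ N := mul_le_of_le_one_left hN0'.le ha1
      have h2 : (2 * e : ℝ) ≤ n1 := by
        rw [hn1']
        have h3 : (e : ℝ) * 32 ≤ e * (32 * r) := by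
          have : (e : ℝ) * 32 * 1 ≤ e * 32 * r :=
            mul_le_mul_of_nonneg_left hr1' (by positivity)
          linarith only [this]
        have h4 : (1 : ℝ) * 1 ≤ (k : ℝ) * r :=
          mul_le_mul hk1' hr1' (by norm_num) (by positivity)
        have h4' : (20 : ℝ) * N ≤ 20 * k * r * N := by
          have h6 : (20 : ℝ) * k * r * N = 20 * N * (k * r) := by ring
          rw [h6]
          have : (20 : ℝ) * N * 1 ≤ 20 * N * (k * r) :=
            mul_le_mul_of_nonneg_left (by linarith only [h4]) (by positivity)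
          linarith only [this]
        have h5 : (0 : ℝ) ≤ e := Nat.cast_nonneg _
        linarith only [h1, he1', h3, h4', h5, hN1']
      exact_mod_cast h2)
    (by
      rw [← hn, hn1def]
      have h1 : 20 * k * r * N = 10 * k * n := by rw [hnr]; ring
      rw [h1]
      have h2 : 1 * n ≤ k * n := Nat.mul_le_mul_right n hk1
      have h3 : k * 1 ≤ k * n := Nat.mul_le_mul_left k hn1
      calc 2 * (n + (n + 1) * (k * 2)) = 2 * n + 4 * (k * n) + 4 * k := by ring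
        _ ≤ 2 * (k * n) + 4 * (k * n) + 4 * (k * n) := by omega
        _ = 10 * k * n := by ring)
  have hcast : ((K * N * (k * 2) : ℕ) : ℝ) = 2 * r * N := by rw [← hn]; exact hnr'
  have hhalf : ((K * N * k : ℕ) : ℝ) = r * N := by
    rw [hr']; push_cast; ring
  refine ⟨K * N * (k * 2), ?_, ?_, ?_, G, hG1, ?_, ?_⟩
  · rw [← hn, hnr]
    exact Nat.le_mul_of_pos_left N (by omega)
  · rw [hcast]
    apply mul_le_mul_of_nonneg_right _ hN0'.le
    have h1 : (2 * r : ℝ) ≤ 2 * (27 / ε * Real.log (2 / ε)) := by rw [hr']; linarith only [hr]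
    have h2 : Real.log (2 / ε) ≤ 2 / ε := by
      have := Real.log_le_sub_one_of_pos h2ε0
      linarith only [this]
    have h3 : 2 * (27 / ε * Real.log (2 / ε)) ≤ 2 * (27 / ε * (2 / ε)) := by
      apply mul_le_mul_of_nonneg_left _ (by norm_num)
      exact mul_le_mul_of_nonneg_left h2 (by positivity)
    have h4 : 2 * (27 / ε * (2 / ε)) = 27 * (2 / ε) ^ 2 := by ring
    have h5 : (2 : ℝ) ^ 5 ≤ (2 / ε) ^ 5 := pow_le_pow_left₀ (by norm_num) h2ε 5
    have h6 : 27 * (2 / ε) ^ 2 ≤ (2 / ε) ^ 7 := by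
      have h7 : (2 / ε) ^ 7 = (2 / ε) ^ 5 * (2 / ε) ^ 2 := by ring
      rw [h7]
      apply mul_le_mul_of_nonneg_right _ (by positivity)
      linarith only [h5]
    have h8 : (2 / ε) ^ 7 ≤ (2 / ε) ^ (2160 : ℝ) := by
      rw [← Real.rpow_natCast]
      exact Real.rpow_le_rpow_of_exponent_le h2ε1 (by norm_num)
    linarith only [h1, h3, h4, h6, h8]
  · exact Dvd.intro_left (K * N * k) (by ring)
  · intro C hC
    refine le_trans ?_ (hG2 C hC)
    rw [hcast, hhalf]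
    have h1 : (0 : ℝ) ≤ ε * (r * N) := by positivity
    linarith only [h1]
  · intro F _ S hS
    obtain ⟨⟨m, hm, hmd⟩, hexp⟩ := hG3 F S hS
    have e1 : X⁻¹ * ((K * N * (k * 2) : ℕ) : ℝ) = X⁻¹ * (2 * r * N) := by rw [hcast]
    have e2 : (2 : ℝ) ^ (X⁻¹ * ((K * N * (k * 2) : ℕ) : ℝ)) = (2 : ℝ) ^ (X⁻¹ * (2 * r * N)) := by
      rw [e1]
    have h0 : X⁻¹ * (2 * r * N) ≤ a / (64 * (r : ℝ) ^ 2) * (2 * r * N) :=
      mul_le_mul_of_nonneg_right hAa (by positivity)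
    have h0' : a / (64 * (r : ℝ) ^ 2) * (2 * r * N) = 2 * (a * N / (64 * r)) := by
      field_simp
    refine ⟨⟨m, hm, ?_⟩, ?_⟩
    · have h1 : (2 * e : ℝ) ≤ m.degree := by exact_mod_cast (by omega : 2 * e ≤ m.degree)
      linarith only [h0, h0', he3, h1, e1]
    · refine le_trans (le_of_eq e2) (le_trans ?_ hexp)
      rw [Real.rpow_def_of_pos (by norm_num : (0 : ℝ) < 2)]
      apply Real.exp_le_exp.2
      have h1 : Real.log 2 * (X⁻¹ * (2 * r * N)) ≤ X⁻¹ * (2 * r * N) :=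
        mul_le_of_le_one_left (mul_nonneg (inv_nonneg.2 hX0.le) (by positivity)) hlog
      have h2 : X⁻¹ * (2 * r * N) ≤ a ^ 2 / D0 * (2 * r * N) :=
        mul_le_mul_of_nonneg_right hA (by positivity)
      refine (h1.trans h2).trans ?_
      have h3 : (a * N / (64 * r)) ^ 2 ≤ (e : ℝ) ^ 2 := pow_le_pow_left₀ (by positivity) he3 2
      have hn1pos : (0 : ℝ) < n1 := by rw [hn1']; positivity
      rw [le_div_iff₀ hn1pos]
      have h4 : a ^ 2 / D0 * (2 * r * N) * n1 = 4 * (a * N / (64 * r)) ^ 2 := by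
        rw [hn1', hD0]
        field_simp
        ring
      rw [h4]
      linarith only [h3]

end Pool.Agent.Results.MP_cff830_lc.PolynomialCalculus
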