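import Pool.Agent.W953.VC.Low

/-!
# Approximate vertex covers: graphs with few and with many numbers of edges

`Easy c` says that circuits of polynomial size print vertex covers of size at most `c` times the
least size (unweighted graphs). `EasyOn c t W` says that there are such circuits with at most `t N`
NOT gates which, for every `a`, have to be right only on the graphs with `N` vertices and at least
`a` and less than `a + W N` ordered pairs of adjacent vertices.

Here it is shown that `EasyOn c t W` and `Easy c` are equivalent for every `c` if `1 ≤ W ≤ 2 ^ t`,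
and that for `c < 2` there are no such circuits with few NOT gates if `W` is large.
-/

set_option autoImplicit false

namespace Pool.Agent.Results.MP_cff830_lc.ZEdgeCountWindows

open Filter Pool.Agent.W953.VC
open Pool.Agent (H540R2.Circuit H540R2.Node)

/-- (1) If `1 ≤ W N ≤ 2 ^ t N` then `EasyOn c t W` is equivalent to `Easy c`. Let `c < 2`. (2) If
`N ≤ W N ^ d` for a constant `d` and infinitely many `N` then `EasyOn c 0 W` is false. (3) Let
`0 ≤ α < 1 / 2` and `n` large, `2 n ≤ N`, `(2 n) ^ 2 < W`. A circuit with at most `α log₂ n` NOT gates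
that prints `c`-approximate vertex covers of all graphs with `N` vertices and less than `W` ordered
pairs of adjacent vertices has at least `(2 ^ (n ^ ((1 - 2 α) / 7)) - N) / 3` gates. -/
theorem result :
    (∀ (c : ℝ) (t W : ℕ → ℕ), (∀ N, 1 ≤ W N ∧ W N ≤ 2 ^ t N) → (EasyOn c t W ↔ Easy c)) ∧
    (∀ c : ℝ, c < 2 →
      (∀ (W : ℕ → ℕ) (d : ℕ), (∃ᶠ N : ℕ in atTop, N ≤ W N ^ d) →
        ¬ EasyOn c (fun _ => 0) W) ∧
      ∀ α : ℝ, 0 ≤ α → α < 1 / 2 → ∃ n0 : ℕ, ∀ n N W : ℕ, n0 ≤ n → 2 * n ≤ N →
        (2 * n) ^ 2 < W → ∀ (D : H540R2.Circuit (N * N)) (o : Fin N → H540R2.Node (N * N)),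
        Ok D o → ((2 ^ D.nots : ℕ) : ℝ) ≤ (n : ℝ) ^ α → (∀ G, arcs G < W → Right c D o G) →
        (2 : ℝ) ^ ((n : ℝ) ^ ((1 - 2 * α) / 7)) ≤ 3 * D.size + N) :=
  ⟨easy_iff, fun c hc => ⟨not_on c hc, fun α h1 h2 => low c hc α h1 h2⟩⟩

end Pool.Agent.Results.MP_cff830_lc.ZEdgeCountWindows
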